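import Pool.Agent.H45R3.AC.Main

/-!
# MP_0946c8_al, Q1: yes

The word problem in every finitely generated group of matrices over `ℚ` has linear average-case
time complexity.

Idea of the proof.  Clear denominators and choose a prime `p` not dividing them.  A one-tape
machine sweeps over the input word again and again; the sweep number `s` computes the `s`-th
`p`-adic digits (in base `p ^ κ`) of all partial products, using the carries stored beside the
letters in the previous sweep, and the machine rejects as soon as a digit of the full product is
wrong, and accepts after `n + 1` sweeps.  So the running time on `w` is about `n` times the number
of correct digits, and the average number of correct digits is bounded because, by a Nash-type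
inequality for the random walk on the congruence quotient modulo `p ^ (κ s)`, the probability of
`s` correct digits is `O(1 / s ^ 2 + 1 / n)`, unless the group is virtually cyclic, when a finite
automaton with a counter decides the word problem in linear time.
-/

namespace Pool.Agent.Results.MP_0946c8_al.LinearAverage

open Pool.Agent.H45R3.AC

/-- For every `m`, every subgroup `G` of `GL_m(ℚ)` and every finite family `f` generating `G`, some
multitape Turing machine decides the word problem of `G` with respect to `f` in linear average
time. -/
theorem result : ∀ (m : ℕ) (G : Subgroup (GL (Fin m) ℚ)) (r : ℕ) (f : Fin r → G),
    Subgroup.closure (Set.range f) = ⊤ → LinearAverageWP f :=
  fun _ G _ f _ => main_subgroup G f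

end Pool.Agent.Results.MP_0946c8_al.LinearAverage
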